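import Pool.Agent.Helper84_TMP.Stmt

set_option autoImplicit false

/-!
# Squad TMP, module DEP: horocycles and the orbits of `U(𝒪)`, deep in the dominant chamber
-/

open scoped BigOperators

namespace Pool.Agent.TMP.H39

open Pool.Agent.DEN Pool.Agent.TMP

section
variable {r : ℕ} {C : Matrix (Fin r) (Fin r) ℤ} {K : Type} [Field K]

theorem ip_expand (x l : Fin r → ℤ) : ip C x l = ∑ i, x i * ip C (al i) l := by
  have e : x = ∑ i, x i • al i := by
    funext j
    simp [al, Finset.sum_apply, Pi.single_apply]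
  conv_lhs => rw [e]
  let f : (Fin r → ℤ) →+ ℤ := ⟨⟨fun y => ip C y l, ip_zero_left C l⟩,
    fun x y => ip_add_left C _ _ _⟩
  have h := map_sum f (fun i => x i • al i) Finset.univ
  refine h.trans (Finset.sum_congr rfl fun i _ => ?_)
  have h2 := map_zsmul f (x i) (al i)
  refine h2.trans ?_
  rw [smul_eq_mul]
  rfl

theorem exists_Bd (a : FF K) : ∃ e : ℤ, a ∈ Bd K e := by
  obtain ⟨hzero, -, -, hmul, -, -, -, hscale, hfac⟩ := H22.hF1 K
  by_cases ha : a = 0
  · exact ⟨0, by rw [ha]; exact hzero 0⟩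
  · obtain ⟨m, u, rfl, hu, -, -, -⟩ := hfac a ha
    exact ⟨m, (hscale m u).2 hu⟩

theorem conj_Ug (hC : SimplyLaced C) (l : Fin r → ℤ) {u : grp C K} (hu : u ∈ Ug C K) :
    tg hC K l * u * (tg hC K l)⁻¹ ∈ Ug C K := by
  rw [Ug_eq hC] at hu ⊢
  induction hu using Subgroup.closure_induction with
  | mem x hx =>
    obtain ⟨β, a, hβ, rfl⟩ := hx
    rw [tg_xg]
    exact Subgroup.subset_closure ⟨β, _, hβ, rfl⟩
  | one => rw [mul_one, mul_inv_cancel]; exact one_mem _
  | mul x y _ _ hx hy =>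
    have e : tg hC K l * (x * y) * (tg hC K l)⁻¹ =
        (tg hC K l * x * (tg hC K l)⁻¹) * (tg hC K l * y * (tg hC K l)⁻¹) := by group
    rw [e]
    exact mul_mem hx hy
  | inv x _ hx =>
    have e : tg hC K l * x⁻¹ * (tg hC K l)⁻¹ = (tg hC K l * x * (tg hC K l)⁻¹)⁻¹ := by group
    rw [e]
    exact inv_mem hx

theorem conj_UO (hC : SimplyLaced C) {u : grp C K} (hu : u ∈ Ug C K) :
    ∃ D : ℤ, 0 ≤ D ∧ ∀ l : Fin r → ℤ, (∀ i, D ≤ ip C (al i) l) →
      (tg hC K l)⁻¹ * u * tg hC K l ∈ UO hC K := by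
  rw [Ug_eq hC] at hu
  induction hu using Subgroup.closure_induction with
  | mem x hx =>
    obtain ⟨β, a, hβ, rfl⟩ := hx
    obtain ⟨e, he⟩ := exists_Bd a
    obtain ⟨hzero, -, -, hmul, hmono, hint, hne, hscale, -⟩ := H22.hF1 K
    refine ⟨max e 0, le_max_right _ _, fun l hl => ?_⟩
    have h1 : (tg hC K l)⁻¹ * xg hC β a * tg hC K l =
        tg hC K (-l) * xg hC β a * (tg hC K (-l))⁻¹ := by rw [tg_neg, inv_inv]
    rw [h1, tg_xg]
    refine Subgroup.subset_closure ⟨β, _, hβ, ?_, rfl⟩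
    have h2 : e ≤ ip C β.1 l := by
      have h3 : ∑ i, β.1 i * (max e 0) ≤ ip C β.1 l := by
        rw [ip_expand]
        exact Finset.sum_le_sum fun i _ => mul_le_mul_of_nonneg_left (hl i) (hβ i)
      rw [← Finset.sum_mul] at h3
      have h4 : 1 ≤ ∑ i, β.1 i := (pos_iff hC β).1 hβ
      have h5 : max e 0 ≤ (∑ i, β.1 i) * max e 0 :=
        le_mul_of_one_le_left (le_max_right _ _) h4
      exact (le_max_left e 0).trans (h5.trans h3)
    have h6 : (1 : FF K) ∈ Bd K 0 := by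
      have := hint 1
      simpa using this
    have h7 : tt K ^ (ip C β.1 (-l)) ∈ Bd K (ip C β.1 (-l)) := by
      have := (hscale (ip C β.1 (-l)) 1).2 h6
      rwa [mul_one] at this
    refine hmono _ _ _ ?_ (hmul _ _ _ _ h7 he)
    rw [ip_neg_right]
    omega
  | one =>
    refine ⟨0, le_rfl, fun l _ => ?_⟩
    rw [mul_one, inv_mul_cancel]
    exact one_mem _
  | mul x y _ _ hx hy =>
    obtain ⟨D1, h1, h2⟩ := hx
    obtain ⟨D2, h3, h4⟩ := hy
    refine ⟨max D1 D2, h1.trans (le_max_left _ _), fun l hl => ?_⟩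
    have e : (tg hC K l)⁻¹ * (x * y) * tg hC K l =
        ((tg hC K l)⁻¹ * x * tg hC K l) * ((tg hC K l)⁻¹ * y * tg hC K l) := by group
    rw [e]
    exact mul_mem (h2 l fun i => (le_max_left _ _).trans (hl i))
      (h4 l fun i => (le_max_right _ _).trans (hl i))
  | inv x _ hx =>
    obtain ⟨D1, h1, h2⟩ := hx
    refine ⟨D1, h1, fun l hl => ?_⟩
    have e : (tg hC K l)⁻¹ * x⁻¹ * tg hC K l = ((tg hC K l)⁻¹ * x * tg hC K l)⁻¹ := by group
    rw [e]
    exact inv_mem (h2 l hl)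

end

theorem dep (_hker : KerStmt) (hsmu : SmuStmt) (hhor : HorStmt) : DepStmt := by
  intro r C hC K _ _ k hk
  obtain ⟨hor1, -, -⟩ := hhor r C hC K
  obtain ⟨-, -, -, -, -, -, smu7⟩ := hsmu r C hC K
  have hUO : UO hC K ≤ Ug C K := by
    rw [Ug_eq hC]
    refine Subgroup.closure_mono ?_
    rintro g ⟨β, a, hβ, -, rfl⟩
    exact ⟨β, a, hβ, rfl⟩
  have hS : {y | k (oo C K) y ≠ 0}.Finite := hk.fin _
  choose uu huu mm hmm using fun y : XX C K => iwa hC y
  choose DD hD0 hDD using fun y : XX C K => conj_UO hC (huu y)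
  obtain ⟨D, hD⟩ := (hS.image DD).bddAbove
  refine ⟨D, fun l m hl u hu => ?_⟩
  set A : Set (XX C K) := {y : XX C K | ∃ u ∈ UO hC K, y = u • tp hC K (-m)} with hA
  have hAu : (fun y => u • y) '' A = A := by
    ext y
    constructor
    · rintro ⟨z, ⟨v, hv, rfl⟩, rfl⟩
      exact ⟨u * v, mul_mem hu hv, by simp only [mul_smul]⟩
    · rintro ⟨v, hv, rfl⟩
      refine ⟨(u⁻¹ * v) • tp hC K (-m), ⟨u⁻¹ * v, mul_mem (inv_mem hu) hv, rfl⟩, ?_⟩
      show u • ((u⁻¹ * v) • tp hC K (-m)) = v • tp hC K (-m)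
      rw [← mul_smul, mul_inv_cancel_left]
  have e1 : ∑ᶠ y ∈ A, k (u • tp hC K (-l)) y = ∑ᶠ y ∈ A, k (tp hC K (-l)) y := by
    conv_lhs => rw [← hAu]
    rw [finsum_mem_image (fun x _ y _ h => MulAction.injective u h)]
    exact finsum_mem_congr rfl fun y _ => hk.inv u _ _
  have e2 : ∑ᶠ y ∈ A, k (tp hC K (-l)) y = ∑ᶠ y ∈ Hor hC K (-m), k (tp hC K (-l)) y := by
    apply finsum_mem_inter_support_eq
    ext y
    constructor
    · rintro ⟨⟨v, hv, rfl⟩, h2⟩
      exact ⟨⟨v, hUO hv, rfl⟩, h2⟩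
    · rintro ⟨⟨v, hv, rfl⟩, h2⟩
      refine ⟨?_, h2⟩
      have h3 : k (oo C K) (tg hC K l • v • tp hC K (-m)) ≠ 0 := by
        have h4 := hk.inv (tg hC K l) (tp hC K (-l)) (v • tp hC K (-m))
        rw [tg_tp, add_neg_cancel, tp_zero] at h4
        rw [h4]
        exact h2
      set p := tg hC K l • v • tp hC K (-m) with hp
      have h5 : p = uu p • tp hC K (mm p) := hmm p
      have h6 : p = (tg hC K l * v * (tg hC K l)⁻¹) • tp hC K (l - m) := by
        have h7 : tp hC K (l - m) = tg hC K l • tp hC K (-m) := by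
          rw [tg_tp, sub_eq_add_neg]
        rw [h7, ← mul_smul, inv_mul_cancel_right, mul_smul, hp]
      have h8 : mm p = l - m := by
        apply hor1 ((tg hC K l * v * (tg hC K l)⁻¹)⁻¹ * uu p)
          (mul_mem (inv_mem (conj_Ug hC l hv)) (huu p))
        rw [mul_smul, ← h5, h6, inv_smul_smul]
      have h9 : v • tp hC K (-m) = (tg hC K l)⁻¹ • p := by
        rw [hp, inv_smul_smul]
      have h10 : DD p ≤ D := hD ⟨p, h3, rfl⟩
      refine ⟨_, hDD p l (fun i => h10.trans (hl i)), ?_⟩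
      show v • tp hC K (-m) = _
      have h11 : tp hC K (-m) = (tg hC K l)⁻¹ • tp hC K (l - m) := by
        rw [← tg_neg, tg_tp]
        congr 1
        ring
      have h12 : ((tg hC K l)⁻¹ * uu p * tg hC K l) • tp hC K (-m) = (tg hC K l)⁻¹ • p := by
        rw [h11, ← mul_smul, mul_inv_cancel_right, mul_smul, ← h8, ← h5]
      rw [h9, h12]
  rw [e1, e2, smu7 k hk (tp hC K (-l)) (-l) (-m) ⟨1, one_mem _, (one_smul _ _).symm⟩]
  congr 1
  ring

end Pool.Agent.TMP.H39
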