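import Pool.Agent.Helper84_TMP.Stmt

set_option autoImplicit false

/-!
# Squad TMP, module HOR: uniqueness in the Iwasawa decomposition
-/

open scoped BigOperators

namespace Pool.Agent.TMP.H39

open Pool.Agent.DEN Pool.Agent.TMP

section
variable {r : ℕ} {C : Matrix (Fin r) (Fin r) ℤ} {K : Type} [Field K]

/-- The vector `2ρ`. -/
theorem exists_rho (hC : SimplyLaced C) : ∃ l : Fin r → ℤ, ∀ β : Rt C, ip C β.1 l = 2 * ht β := by
  classical
  have hfin : Finite (Rt C) := H22.hRF r C hC
  have h3 := (H22.hRD r C hC).2.2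
  let _ : Fintype {β : Rt C // β.Pos} := Fintype.ofFinite _
  let l : Fin r → ℤ := ∑ β : {β : Rt C // β.Pos}, β.1.1
  have hal : ∀ i, ip C (al i) l = 2 := by
    intro i
    have e : ip C (al i) l = ∑ β : {β : Rt C // β.Pos}, ip C (al i) β.1.1 := by
      let f : (Fin r → ℤ) →+ ℤ := ⟨⟨fun y => ip C (al i) y, ip_zero_right C (al i)⟩,
        fun x y => ip_add_right C _ _ _⟩
      exact map_sum f _ _
    rw [e]
    refine Eq.trans ?_ (h3 i)
    rw [finsum_eq_sum_of_fintype]
    exact Finset.sum_congr rfl fun β _ => hC.ip_comm _ _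
  refine ⟨l, fun β => ?_⟩
  have e : β.1 = ∑ i, β.1 i • al i := by
    funext j
    simp [al, Finset.sum_apply, Pi.single_apply]
  have e2 : ip C β.1 l = ∑ i, β.1 i * ip C (al i) l := by
    conv_lhs => rw [e]
    let f : (Fin r → ℤ) →+ ℤ := ⟨⟨fun y => ip C y l, ip_zero_left C l⟩,
      fun x y => ip_add_left C _ _ _⟩
    have h := map_sum f (fun i => β.1 i • al i) Finset.univ
    refine h.trans (Finset.sum_congr rfl fun i _ => ?_)
    have h2 := map_zsmul f (β.1 i) (al i)
    refine h2.trans ?_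
    rw [smul_eq_mul]
    rfl
  rw [e2]
  simp only [hal]
  rw [← Finset.sum_mul]
  unfold ht
  ring

theorem luni_Ug (hC : SimplyLaced C) {l : Fin r → ℤ} (hl : ∀ β : Rt C, ip C β.1 l = 2 * ht β)
    {u : grp C K} (hu : u ∈ Ug C K) : H64.LUni l u ∧ H64.LUni l u⁻¹ := by
  unfold Ug at hu
  induction hu using Subgroup.closure_induction with
  | mem x hx =>
    obtain ⟨β, a, h1, h3⟩ := hx
    have h0 : 0 < ip C β.1 l := by
      have := (pos_iff hC β).1 h1
      rw [hl]
      omega
    rw [eq_xg hC β a x h3, xg_inv]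
    exact ⟨H64.xg_luni hC β a h0, H64.xg_luni hC β _ h0⟩
  | one => exact ⟨H64.luni_one, by rw [inv_one]; exact H64.luni_one⟩
  | mul x y hx hy h1 h2 =>
    refine ⟨h1.1.mul h2.1, ?_⟩
    rw [mul_inv_rev]
    exact h2.2.mul h1.2
  | inv x hx h1 => exact ⟨h1.2, by rw [inv_inv]; exact h1.1⟩

theorem one_not_mem : (1 : FF K) ∉ Bd K (-1) := by
  intro h
  have h1 := h 0 (by norm_num)
  rw [HahnSeries.coeff_one, if_pos rfl] at h1
  exact one_ne_zero h1

theorem tt_mem {n : ℤ} (h : tt K ^ n ∈ Bd K 0) : n ≤ 0 := by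
  by_contra hn
  push Not at hn
  obtain ⟨-, -, -, hmul, hmono, hint, hne, hscale, -⟩ := H22.hF1 K
  have h1 : (1 : FF K) ∈ Bd K 0 := by
    have := hint 1
    simpa using this
  have h2 : tt K ^ (-n) * 1 ∈ Bd K (-n) := (hscale (-n) 1).2 h1
  rw [mul_one] at h2
  have h3 := hmul _ _ _ _ h2 h
  rw [← zpow_add₀ hne, neg_add_cancel, zpow_zero, add_zero] at h3
  exact one_not_mem (hmono _ _ _ (by omega) h3)

theorem EE_Cd (β : Rt C) : Cd (Bd K 0) (EE β : LieV C (FF K)) := by
  classical
  obtain ⟨hzero, -, -, -, -, hint, -⟩ := H22.hF1 K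
  refine ⟨fun i => hzero 0, fun γ => ?_⟩
  unfold EE
  simp only
  split_ifs
  · have := hint 1
    simpa using this
  · exact hzero 0

theorem hor1 (hC : SimplyLaced C) {u : grp C K} (hu : u ∈ Ug C K) (l m : Fin r → ℤ)
    (h : u • tp hC K l = tp hC K m) : l = m := by
  obtain ⟨l0, hl0⟩ := exists_rho hC
  have hg : (tg hC K m)⁻¹ * (u * tg hC K l) ∈ maxK C K := by
    unfold tp at h
    rw [smul_pt] at h
    unfold pt at h
    exact QuotientGroup.eq.1 h.symm
  have key : ∀ β : Rt C, ip C β.1 l ≤ ip C β.1 m := by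
    intro β
    have h1 := (hg (EE β)).2 (EE_Cd β)
    have h2 := h1.2 β
    have h3 : ((tg hC K m)⁻¹ * (u * tg hC K l)).1 (EE β) =
        (tg hC K (-m)).1 (u.1 ((tg hC K l).1 (EE β))) := by
      rw [tg_neg]
      rfl
    have h4 : (tg hC K l).1 (EE β : LieV C (FF K)) = tt K ^ (ip C β.1 l) • EE β := by
      classical
      rw [isTor_tg hC l]
      refine Prod.ext ?_ ?_
      · show (0 : Fin r → FF K) = tt K ^ (ip C β.1 l) • (0 : Fin r → FF K)
        rw [smul_zero]
      · funext γ
        show tt K ^ (ip C γ.1 l) * (if γ = β then 1 else 0) =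
          tt K ^ (ip C β.1 l) * (if γ = β then 1 else 0)
        by_cases hγ : γ = β
        · rw [hγ]
        · rw [if_neg hγ, mul_zero, mul_zero]
    have h5 : (u.1 (EE β)).2 β = 1 := by
      classical
      have h6 := ((luni_Ug hC hl0 hu).1 _ _ (H64.EE_fil l0 β)).2 β (by omega)
      have h7 : (EE β : LieV C (FF K)).2 β = 1 := by
        unfold EE
        simp only [if_true]
      rw [Prod.snd_sub, Pi.sub_apply, h7, sub_eq_zero] at h6
      exact h6
    rw [h3, h4, map_smul, isTor_tg hC (-m)] at h2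
    have h8 : tt K ^ (ip C β.1 (-m)) * (tt K ^ (ip C β.1 l) * (u.1 (EE β)).2 β) ∈ Bd K 0 := h2
    rw [h5, mul_one, ← zpow_add₀ (H22.hF1 K).2.2.2.2.2.2.1] at h8
    have h9 := tt_mem h8
    rw [ip_neg_right] at h9
    omega
  apply (H22.hRS r C hC).2.2.1
  intro i
  have k1 := key (hC.sr i)
  have k2 := key (hC.sr i).neg
  rw [Rt.neg_val, ip_neg_left, ip_neg_left] at k2
  rw [SimplyLaced.sr_val] at k1 k2
  omega

end

theorem hor (hcoo : CooStmt) : HorStmt := by
  intro r C hC K _
  obtain ⟨co, co1, co2, co3, co4, co5, co6, H, hH⟩ := hcoo r C hC K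
  have hUO : UO hC K ≤ Ug C K := by
    rw [Ug_eq hC]
    refine Subgroup.closure_mono ?_
    rintro g ⟨β, a, hβ, -, rfl⟩
    exact ⟨β, a, hβ, rfl⟩
  -- elementary consequences
  have co_one : ∀ (h : ℕ) (β : Rt C), 1 ≤ h → ht β = h → co 1 β = 0 := by
    intro h β hh hβ
    have := co1 h 1 1 β hh (one_mem _) (one_mem _) hβ
    rw [mul_one] at this
    exact left_eq_add.1 this
  have co_inv : ∀ (h : ℕ) (u : grp C K) (β : Rt C), 1 ≤ h → u ∈ UH hC K h → ht β = h →
      co u⁻¹ β = - co u β := by
    intro h u β hh hu hβ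
    have := co1 h u⁻¹ u β hh (inv_mem hu) hu hβ
    rw [inv_mul_cancel, co_one h β hh hβ] at this
    exact eq_neg_of_add_eq_zero_left this.symm
  refine ⟨fun u hu l m h => hor1 hC hu l m h, ?_, ?_⟩
  · intro i b b' l u hu h
    have hti : ht (hC.sr i) = ((1 : ℕ) : ℤ) := by
      unfold ht
      rw [SimplyLaced.sr_val]
      simp [al, Pi.single_apply]
    have hpos : (hC.sr i).Pos := (pos_iff hC _).2 (by rw [hti]; norm_num)
    have hU1 : ∀ {g : grp C K}, g ∈ Ug C K → g ∈ UH hC K 1 := by
      intro g hg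
      rw [UH_one hC]
      exact hg
    have hui : co u (hC.sr i) = 0 := by
      clear h
      rw [Un_eq hC i] at hu
      have hle : ∀ x ∈ Subgroup.closure {g : grp C K | ∃ (β : Rt C) (a : FF K), β.Pos ∧
          β.1 ≠ al i ∧ g = xg hC β a}, x ∈ UH hC K 1 := by
        intro x hx
        rw [← Un_eq hC i] at hx
        exact hU1 (Un_le i hx)
      induction hu using Subgroup.closure_induction with
      | mem x hx =>
        obtain ⟨β, a, h1, h2, rfl⟩ := hx
        have h3 := (pos_iff hC β).1 h1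
        rcases Nat.lt_or_ge 1 (ht β).toNat with h4 | h4
        · apply co4 1 _ _ le_rfl _ hti
          exact Subgroup.subset_closure ⟨β, a, by push_cast; omega, rfl⟩
        · apply co3 _ _ _ hpos
          · rw [hti]
            push_cast
            omega
          · intro h5
            exact h2 (congrArg Subtype.val h5)
      | one => exact co_one 1 _ le_rfl hti
      | mul x y hx hy h1 h2 =>
        rw [co1 1 x y _ le_rfl (hle x hx) (hle y hy) hti, h1, h2, add_zero]
      | inv x hx h1 => rw [co_inv 1 x _ le_rfl (hle x hx) hti, h1, neg_zero]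
    have hx : ∀ a : FF K, xi hC i a ∈ UH hC K 1 := fun a => hU1 (xg_Ug hC hpos a)
    have hu1 : u ∈ UH hC K 1 := hU1 (Un_le i hu)
    have hfix : ((xi hC i b')⁻¹ * (u * xi hC i b)) • tp hC K l = tp hC K l := by
      rw [mul_smul, mul_smul, h, inv_smul_smul]
    have hmem := co6 1 _ (hC.sr i) l le_rfl (mul_mem (inv_mem (hx b')) (mul_mem hu1 (hx b))) hti
      hfix
    rw [co1 1 _ _ _ le_rfl (inv_mem (hx b')) (mul_mem hu1 (hx b)) hti,
      co1 1 _ _ _ le_rfl hu1 (hx b) hti, co_inv 1 _ _ le_rfl (hx b') hti, hui, zero_add] at hmem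
    unfold xi at hmem
    rw [co2 _ _ hpos, co2 _ _ hpos, SimplyLaced.sr_val] at hmem
    rw [sub_eq_neg_add]
    exact hmem
  · classical
    have hfin : Finite (Rt C) := H22.hRF r C hC
    let _ : Fintype (Rt C) := Fintype.ofFinite _
    have step : ∀ h : ℕ, 1 ≤ h → (∀ u ∈ UH hC K (h + 1), u • oo C K = oo C K → u ∈ UO hC K) →
        ∀ u ∈ UH hC K h, u • oo C K = oo C K → u ∈ UO hC K := by
      intro h hh ih u hu hfix
      have key : ∀ S : Finset (Rt C), (∀ β ∈ S, ht β = h) →
          ∃ p ∈ UO hC K, p ∈ UH hC K h ∧ p • oo C K = oo C K ∧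
            ∀ β : Rt C, ht β = h → co (u * p) β = if β ∈ S then 0 else co u β := by
        intro S
        induction S using Finset.induction_on with
        | empty =>
          intro _
          refine ⟨1, one_mem _, one_mem _, one_smul _ _, fun β _ => ?_⟩
          rw [mul_one, if_neg (by simp)]
        | insert γ S hγS ihS =>
          intro hS
          obtain ⟨p, hp1, hp2, hp3, hp4⟩ := ihS (fun β hβ => hS β (Finset.mem_insert_of_mem hβ))
          have hγ : ht γ = h := hS γ (Finset.mem_insert_self _ _)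
          have hγpos : γ.Pos := (pos_iff hC γ).2 (by rw [hγ]; exact_mod_cast hh)
          have hbd : co u γ ∈ Bd K 0 := by
            have h0 : u • tp hC K 0 = tp hC K 0 := by
              rw [tp_zero]
              exact hfix
            have := co6 h u γ 0 hh hu hγ h0
            rwa [ip_zero_right] at this
          have hbd' : - co u γ ∈ Bd K 0 := (H22.hF1 K).2.2.1 _ _ hbd
          have hx1 : xg hC γ (- co u γ) ∈ UH hC K h :=
            Subgroup.subset_closure ⟨γ, _, by rw [hγ], rfl⟩
          refine ⟨p * xg hC γ (- co u γ),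
            mul_mem hp1 (Subgroup.subset_closure ⟨γ, _, hγpos, hbd', rfl⟩),
            mul_mem hp2 hx1, ?_, fun β hβ => ?_⟩
          · rw [mul_smul, xg_oo hC γ hbd', hp3]
          · rw [← mul_assoc, co1 h _ _ β hh (mul_mem hu hp2) hx1 hβ, hp4 β hβ]
            by_cases hβγ : β = γ
            · subst hβγ
              rw [co2 _ _ hγpos, if_neg hγS, if_pos (Finset.mem_insert_self _ _), add_neg_cancel]
            · have hβpos : β.Pos := (pos_iff hC β).2 (by rw [hβ]; exact_mod_cast hh)
              rw [co3 β γ _ hβpos (by rw [hγ, hβ]) (fun h' => hβγ h'.symm), add_zero]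
              simp only [Finset.mem_insert, hβγ, false_or]
      obtain ⟨p, hp1, hp2, hp3, hp4⟩ := key (Finset.univ.filter fun β => ht β = h)
        (fun β hβ => (Finset.mem_filter.1 hβ).2)
      have hup : u * p ∈ UH hC K (h + 1) := by
        apply co5 h _ hh (mul_mem hu hp2)
        intro β hβ
        have hm : β ∈ Finset.univ.filter (fun β : Rt C => ht β = h) :=
          Finset.mem_filter.2 ⟨Finset.mem_univ _, hβ⟩
        rw [hp4 β hβ, if_pos hm]
      have h1 := ih (u * p) hup (by rw [mul_smul, hp3, hfix])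
      have h2 := mul_mem h1 (inv_mem hp1)
      rwa [mul_inv_cancel_right] at h2
    have all : ∀ d h : ℕ, 1 ≤ h → H ≤ h + d → ∀ u ∈ UH hC K h, u • oo C K = oo C K →
        u ∈ UO hC K := by
      intro d
      induction d with
      | zero =>
        intro h _ hHh u hu _
        rw [hH h (by omega)] at hu
        rw [Subgroup.mem_bot.1 hu]
        exact one_mem _
      | succ d ihd =>
        intro h hh hHh
        exact step h hh (ihd (h + 1) (by omega) (by omega))
    intro u hu hfix
    refine all H 1 le_rfl (by omega) u ?_ hfix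
    rw [UH_one hC]
    exact hu

end Pool.Agent.TMP.H39
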